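import Pool.Agent.helper18.KU.Spec

set_option autoImplicit false

namespace Pool.Agent.KU

open Finset

noncomputable section

theorem CNT (hDEG : DEG_stmt) (hCRI : CRI_stmt) : CNT_stmt := by
  classical
  intro V _ S X w hC hI h5 hdj
  by_contra hcon
  push Not at hcon
  obtain ⟨-, hsum, hE, -⟩ := hDEG V S X w hC hI (by omega)
  have hcr := hCRI V S X w hC hI (by omega)
  set QQ : Finset (Finset V) := S.powerset.filter fun Q => Crit S w Q with hQQ
  have hmem : ∀ Q, Q ∈ QQ ↔ Crit S w Q := by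
    intro Q
    rw [hQQ, Finset.mem_filter, Finset.mem_powerset]
    constructor
    · intro h
      exact h.2
    · intro h
      exact ⟨h.1, h⟩
  set U : Finset V := QQ.biUnion id with hU
  have hpd : (QQ : Set (Finset V)).PairwiseDisjoint id := by
    intro Q hQ Q' hQ' hne
    exact hdj Q Q' ((hmem Q).mp hQ) ((hmem Q').mp hQ') hne
  have hUS : U ⊆ S := by
    intro u hu
    rw [hU, Finset.mem_biUnion] at hu
    obtain ⟨Q, hQ, hu⟩ := hu
    exact ((hmem Q).mp hQ).1 hu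
  have hUc : U.card = 3 * QQ.card := by
    rw [hU, Finset.card_biUnion hpd]
    have h1 : ∑ Q ∈ QQ, (id Q).card = ∑ Q ∈ QQ, 3 :=
      Finset.sum_congr rfl (fun Q hQ => ((hmem Q).mp hQ).2.1)
    rw [h1, Finset.sum_const, smul_eq_mul, mul_comm]
  have hUs : 16 * QQ.card ≤ ∑ v ∈ U, (X v + dg w S v) := by
    rw [hU, Finset.sum_biUnion hpd]
    have h1 : ∑ Q ∈ QQ, 16 ≤ ∑ Q ∈ QQ, ∑ v ∈ id Q, (X v + dg w S v) :=
      Finset.sum_le_sum fun Q hQ => (hcr Q ((hmem Q).mp hQ)).2.2.2.1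
    rw [Finset.sum_const, smul_eq_mul, mul_comm] at h1
    exact h1
  have hco : 6 * (S \ U).card ≤ ∑ v ∈ S \ U, (X v + dg w S v) := by
    have h1 : ∑ v ∈ S \ U, 6 ≤ ∑ v ∈ S \ U, (X v + dg w S v) := by
      refine Finset.sum_le_sum fun v hv => ?_
      rw [Finset.mem_sdiff] at hv
      by_contra hlt
      obtain ⟨Q, hQ, hvQ⟩ := hcon v hv.1 (by omega)
      refine hv.2 ?_
      rw [hU, Finset.mem_biUnion]
      exact ⟨Q, (hmem Q).mpr hQ, hvQ⟩
    rw [Finset.sum_const, smul_eq_mul, mul_comm] at h1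
    exact h1
  have hsp : ∑ v ∈ S \ U, (X v + dg w S v) + ∑ v ∈ U, (X v + dg w S v) = ∑ v ∈ S, (X v + dg w S v) :=
    Finset.sum_sdiff hUS
  have hcard : (S \ U).card + U.card = S.card := Finset.card_sdiff_add_card_eq_card hUS
  omega

end

end Pool.Agent.KU
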